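import Pool.Agent.P.MP_b5e666_co.Main

namespace Pool.Agent.Results.MP_b5e666_co.FourThirds

theorem result :
    ∀ n : ℕ, 1 ≤ n → ∀ H : Finset (Finset (Fin n)),
      (H : Set (Finset (Fin n))).Intersecting →
      ∃ m : ℕ, (m : ℝ) ≤ ((n : ℝ) ^ 2 / 2) ^ ((2 : ℝ) / 3) + 2 * n ∧
        ∃ f : Finset (Fin n) → Fin m,
          ∀ F ∈ H, ∀ F' ∈ H, F ≠ F' → f F = f F' → 2 ≤ (F ∩ F').card := by
  intro n hn H hH
  obtain ⟨m, h1, h2, h3⟩ := Pool.Agent.P.MP_b5e666_co.col_general hn hH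
  exact ⟨m, h2, h3.toFin h1⟩

end Pool.Agent.Results.MP_b5e666_co.FourThirds
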