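import Pool.Agent.P.MP_b5e666_co.W2

set_option autoImplicit false

namespace Pool.Agent.Results.MP_b5e666_co.PowerGap

theorem result :
    ∃ n0 : ℕ, ∀ n : ℕ, n0 ≤ n → ∃ H : Finset (Finset (Fin n)),
      (H : Set (Finset (Fin n))).Intersecting ∧
      ∀ m : ℕ, m ^ 3000 ≤ n ^ 3001 →
        ¬ ∃ f : Finset (Fin n) → Fin m,
          ∀ F ∈ H, ∀ F' ∈ H, F ≠ F' → f F = f F' → 2 ≤ (F ∩ F').card :=
  Pool.Agent.P.MP_b5e666_co.Lar.mainW

/-- The negated form of Q1, for every large n. -/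
theorem posed :
    ∃ n0 : ℕ, ∀ n : ℕ, n0 ≤ n → ∃ H : Finset (Finset (Fin n)),
      (H : Set (Finset (Fin n))).Intersecting ∧
      ¬ ∃ f : Finset (Fin n) → Fin n,
        ∀ F ∈ H, ∀ F' ∈ H, F ≠ F' → f F = f F' → 2 ≤ (F ∩ F').card := by
  obtain ⟨n0, h⟩ := result
  refine ⟨n0 + 1, fun n hn => ?_⟩
  obtain ⟨H, h1, h2⟩ := h n (by omega)
  exact ⟨H, h1, h2 n (Nat.pow_le_pow_right (by omega) (by norm_num))⟩

end Pool.Agent.Results.MP_b5e666_co.PowerGap
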