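import Pool.Agent.P.MP_b5e666_co.Main

namespace Pool.Agent.Results.MP_b5e666_co.SmallRank

open Pool.Agent.P.MP_b5e666_co in
theorem result :
    ∀ n k : ℕ, 1 ≤ n → k * k + 1 ≤ n + k → ∀ H : Finset (Finset (Fin n)),
      (H : Set (Finset (Fin n))).Intersecting → (∀ F ∈ H, F.card ≤ k) →
      ∃ f : Finset (Fin n) → Fin n,
        ∀ F ∈ H, ∀ F' ∈ H, F ≠ F' → f F = f F' → 2 ≤ (F ∩ F').card :=
  fun _ _ hn hk _ hH h => Col.toFin hn (col_rank hn hk hH h)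

end Pool.Agent.Results.MP_b5e666_co.SmallRank
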