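import Pool.Agent.P.MP_b5e666_co.Main

namespace Pool.Agent.Results.MP_b5e666_co.Symmetric

open Pool.Agent.P.MP_b5e666_co in
theorem result :
    ∀ n : ℕ, 1 ≤ n → ∀ H : Finset (Finset (Fin n)),
      (H : Set (Finset (Fin n))).Intersecting →
      ∀ Γ : Subgroup (Equiv.Perm (Fin n)), (∀ π ∈ Γ, ∀ F ∈ H, F.image π ∈ H) →
      ((∃ π ∈ Γ, ∀ x, π x ≠ x) ∨ (∀ x y, ∃ π ∈ Γ, π x = y)) →
      ∃ f : Finset (Fin n) → Fin n,
        ∀ F ∈ H, ∀ F' ∈ H, F ≠ F' → f F = f F' → 2 ≤ (F ∩ F').card := by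
  intro n hn H hH Γ hΓ h
  apply Col.toFin hn
  rcases Nat.lt_or_ge n 2 with h2 | h2
  · apply col_rank (k := 1) hn (by omega) hH
    intro F _
    have := Finset.card_le_univ F
    rw [Fintype.card_fin] at this
    omega
  · have h' : ∃ π ∈ Γ, ∀ x, π x ≠ x := h.elim id (exists_derangement h2 Γ)
    obtain ⟨π, h3, h4⟩ := h'
    have := col_derangement hH π h4 (hΓ π h3)
    rwa [Fintype.card_fin] at this

end Pool.Agent.Results.MP_b5e666_co.Symmetric
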